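import Pool.Agent.H18.L.Y113.G.Ord

/-!
# Project GF: the derived vectors span at the point `ξ`
-/

set_option autoImplicit false

open PowerSeries Finset.HasAntidiagonal

namespace Pool.Agent.Y113

lemma natDegree_nab {N : ℕ} {T : Polynomial ℚ} {B : Fin N → Fin N → Polynomial ℚ} {b : ℕ} (hT : T.natDegree ≤ b)
    (hB : ∀ i j, (B i j).natDegree ≤ b) {P : Fin N → Polynomial ℚ} {n : ℕ} (hP : ∀ i, (P i).natDegree ≤ n) (k : ℕ) :
    ∀ j, ((nab T B)^[k] P j).natDegree ≤ n + k * b := by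
  induction k generalizing P n with
  | zero => intro j; simpa using hP j
  | succ k ih =>
    intro j
    rw [Function.iterate_succ_apply]
    have h1 : ∀ i, (nab T B P i).natDegree ≤ n + b := by
      intro i
      unfold nab
      refine (Polynomial.natDegree_add_le _ _).trans (max_le ?_ ?_)
      · refine Polynomial.natDegree_mul_le.trans ?_
        have := (Polynomial.natDegree_derivative_le (P i))
        have := hP i
        omega
      · refine Polynomial.natDegree_sum_le_of_forall_le _ _ fun l _ => ?_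
        refine Polynomial.natDegree_mul_le.trans ?_
        have := hP l
        have := hB l i
        omega
    refine (ih h1 j).trans ?_
    ring_nf
    omega

lemma natDegree_det_nab {N : ℕ} {T : Polynomial ℚ} {B : Fin N → Fin N → Polynomial ℚ} {b : ℕ} (hT : T.natDegree ≤ b)
    (hB : ∀ i j, (B i j).natDegree ≤ b) {P : Fin N → Polynomial ℚ} {n : ℕ} (hP : ∀ i, (P i).natDegree ≤ n) :
    (Matrix.of fun k j : Fin N => ((nab T B)^[(k : ℕ)] P) j).det.natDegree ≤ N * n + N * N * b := by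
  rw [Matrix.det_apply]
  refine Polynomial.natDegree_sum_le_of_forall_le _ _ fun σ _ => ?_
  refine (Polynomial.natDegree_smul_le _ _).trans ?_
  refine (Polynomial.natDegree_prod_le _ _).trans ?_
  have h1 : ∀ i : Fin N, ((Matrix.of fun k j : Fin N => ((nab T B)^[(k : ℕ)] P) j) (σ i) i).natDegree ≤ n + N * b := by
    intro i
    refine (natDegree_nab hT hB hP (σ i) i).trans ?_
    have : (σ i : ℕ) * b ≤ N * b := Nat.mul_le_mul_right _ (σ i).2.le
    omega
  refine (Finset.sum_le_sum fun i _ => h1 i).trans ?_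
  simp
  ring_nf
  omega

/-- the homomorphism `p ↦ p(ξ + x)` -/
noncomputable def tay (ξ : ℚ) : Polynomial ℚ →+* ℚ⟦X⟧ :=
  Polynomial.coeToPowerSeries.ringHom.comp (Polynomial.taylorAlgHom ξ).toRingHom

lemma tay_apply (ξ : ℚ) (p : Polynomial ℚ) : tay ξ p = ((Polynomial.taylor ξ p : Polynomial ℚ) : ℚ⟦X⟧) := rfl

lemma tay_deriv (ξ : ℚ) (p : Polynomial ℚ) : d⁄dX ℚ (tay ξ p) = tay ξ (Polynomial.derivative p) := by
  rw [tay_apply, tay_apply, PowerSeries.derivative_coe]
  congr 1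
  simp only [Polynomial.taylor_apply, Polynomial.derivative_comp]
  simp

lemma tay_C (ξ : ℚ) (c : ℚ) : tay ξ (Polynomial.C c) = C c := by
  rw [tay_apply, Polynomial.taylor_C, Polynomial.coe_C]

lemma coe_deriv' (p : Polynomial ℚ) : d⁄dX ℚ (Polynomial.coeToPowerSeries.ringHom p) =
      Polynomial.coeToPowerSeries.ringHom (Polynomial.derivative p) := by
  simp [Polynomial.coeToPowerSeries.ringHom_apply, PowerSeries.derivative_coe]

theorem rank_point (h_sh : T_shid) (h_loc : T_loc) {N : ℕ} {T : Polynomial ℚ} {B : Fin N → Fin N → Polynomial ℚ}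
    {y : Fin N → ℚ⟦X⟧} (hy : ∀ i, (T : ℚ⟦X⟧) * d⁄dX ℚ (y i) = ∑ j, (B i j : ℚ⟦X⟧) * y j)
    (hLI : LinearIndependent (Polynomial ℚ) y) (i₀ : Fin N) (h1 : y i₀ = 1) (ξ : ℚ) (hξ0 : ξ ≠ 0) (hξ : T.eval ξ ≠ 0) :
    ∃ c₁ : ℕ, ∀ (n m K : ℕ) (P : Fin N → Polynomial ℚ), P ≠ 0 → (∀ i, (P i).natDegree ≤ n) →
      (∀ l < m, coeff l (∑ i, (P i : ℚ⟦X⟧) * y i) = 0) → (N - 1) * n + c₁ < m → N * n + c₁ < m + K →
      ∀ (g : ℚ) (G : ℕ → Fin N → Fin N → Polynomial ℚ), g ≠ 0 →
      (∀ s ≤ K, ∀ i, C g * ((T : ℚ⟦X⟧) ^ s * hd s (y i)) = ∑ j, (G s i j : ℚ⟦X⟧) * y j) →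
      ∀ v : Fin N → ℚ, (∀ k ≤ K, ∑ j, (Pd T G P k j).eval ξ * v j = 0) → v = 0 := by
  obtain ⟨c, hc⟩ := h_sh ℚ N T B y ξ hξ hy hLI
  obtain ⟨b, hbT, hbB⟩ : ∃ b : ℕ, T.natDegree ≤ b ∧ ∀ i j, (B i j).natDegree ≤ b := by
    refine ⟨T.natDegree + ∑ i, ∑ j, (B i j).natDegree, by omega, fun i j => ?_⟩
    have h2 : (B i j).natDegree ≤ ∑ j, (B i j).natDegree :=
      Finset.single_le_sum (f := fun j => (B i j).natDegree) (fun _ _ => Nat.zero_le _) (Finset.mem_univ j)
    have h3 : ∑ j, (B i j).natDegree ≤ ∑ i, ∑ j, (B i j).natDegree :=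
      Finset.single_le_sum (f := fun i => ∑ j, (B i j).natDegree) (fun _ _ => Nat.zero_le _) (Finset.mem_univ i)
    omega
  refine ⟨c + N * N * b + 2 * N, ?_⟩
  intro n m K P hP0 hPn hm hm1 hm2 g G hg hG v hv
  by_contra hv0
  have hNpos : 0 < N := i₀.pos
  set Δ := (Matrix.of fun k j : Fin N => ((nab T B)^[(k : ℕ)] P) j).det with hΔ
  have hΔ0 : Δ ≠ 0 := hc n m P hP0 hPn hm (by omega)
  have hdeg : Δ.natDegree ≤ N * n + N * N * b := natDegree_det_nab hbT hbB hPn
  -- order at 0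
  have ho1 := det_order Polynomial.coeToPowerSeries.ringHom coe_deriv' (T := T) (B := B) (w := y)
    (by simpa [Polynomial.coeToPowerSeries.ringHom_apply] using hy) P m
    (by simpa [Polynomial.coeToPowerSeries.ringHom_apply] using hm) i₀ (by rw [h1]; simp)
  have hd1 : (Polynomial.X : Polynomial ℚ) ^ (m + 1 - N) ∣ Δ := by
    rw [Polynomial.X_pow_dvd_iff]
    intro l hl
    have := ho1 l (by omega)
    rw [Polynomial.coeToPowerSeries.ringHom_apply, Polynomial.coeff_coe] at this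
    exact this
  -- local solution
  have hT0 : (Polynomial.taylor ξ T).eval 0 ≠ 0 := by
    rw [Polynomial.taylor_eval]; simpa using hξ
  obtain ⟨w, hw0, hw⟩ := h_loc ℚ N (Polynomial.taylor ξ T) (fun i j => Polynomial.taylor ξ (B i j)) v hT0
  have hw' : ∀ i, tay ξ T * d⁄dX ℚ (w i) = ∑ j, tay ξ (B i j) * w j := hw
  have hGw := G_transfer hy hLI hG (tay ξ) (tay_deriv ξ) (tay_C ξ) hw'
  have hTc : constantCoeff (tay ξ T) ≠ 0 := by
    rw [tay_apply, ← PowerSeries.coeff_zero_eq_constantCoeff_apply, Polynomial.coeff_coe, Polynomial.taylor_coeff_zero]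
    exact hξ
  have hf : ∀ l < K + 1, coeff l (∑ i, tay ξ (P i) * w i) = 0 := by
    intro l hl
    have h2 := Pd_eq (tay ξ) (tay_deriv ξ) hGw P l (by omega)
    have h3 := congrArg constantCoeff h2
    rw [map_sum] at h3
    have h4 : ∀ j, constantCoeff (tay ξ (Pd T G P l j) * w j) = (Pd T G P l j).eval ξ * v j := by
      intro j
      rw [map_mul, hw0, tay_apply, ← PowerSeries.coeff_zero_eq_constantCoeff_apply, Polynomial.coeff_coe,
        Polynomial.taylor_coeff_zero]
    simp only [h4, hv l (by omega), map_mul, map_pow, constantCoeff_C] at h3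
    have h5 : constantCoeff (hd l (∑ i, tay ξ (P i) * w i)) = coeff l (∑ i, tay ξ (P i) * w i) := by
      rw [← PowerSeries.coeff_zero_eq_constantCoeff_apply, coeff_hd]
      simp
    rw [h5] at h3
    rcases mul_eq_zero.1 h3 with h6 | h6
    · exact absurd h6 hg
    · rcases mul_eq_zero.1 h6 with h7 | h7
      · exact absurd h7 (pow_ne_zero _ hTc)
      · exact h7
  obtain ⟨j₀, hj₀⟩ : ∃ j, v j ≠ 0 := by
    by_contra hcon
    push Not at hcon
    exact hv0 (funext hcon)
  have ho2 := det_order (tay ξ) (tay_deriv ξ) hw' P (K + 1) hf j₀ (by rw [hw0]; exact hj₀)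
  have hd2 : (Polynomial.X - Polynomial.C ξ) ^ (K + 2 - N) ∣ Δ := by
    have h2 : (Polynomial.X : Polynomial ℚ) ^ (K + 2 - N) ∣ Polynomial.taylor ξ Δ := by
      rw [Polynomial.X_pow_dvd_iff]
      intro l hl
      have := ho2 l (by omega)
      rw [tay_apply, Polynomial.coeff_coe] at this
      exact this
    obtain ⟨Q, hQ⟩ := h2
    refine ⟨Polynomial.taylor (-ξ) Q, ?_⟩
    have h3 := congrArg (Polynomial.taylor (-ξ)) hQ
    rw [Polynomial.taylor_taylor, neg_add_cancel, Polynomial.taylor_zero, Polynomial.taylor_mul] at h3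
    rw [h3]
    congr 1
    rw [Polynomial.taylor_pow, Polynomial.taylor_X]
    simp [sub_eq_add_neg]
  have hcop : IsCoprime ((Polynomial.X : Polynomial ℚ) ^ (m + 1 - N)) ((Polynomial.X - Polynomial.C ξ) ^ (K + 2 - N)) := by
    apply IsCoprime.pow
    have := Polynomial.isCoprime_X_sub_C_of_isUnit_sub (R := ℚ) (a := 0) (b := ξ)
      (isUnit_iff_ne_zero.2 (by simpa using hξ0))
    simpa using this
  have hdvd := hcop.mul_dvd hd1 hd2
  have hle := Polynomial.natDegree_le_of_dvd hdvd hΔ0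
  rw [Polynomial.natDegree_mul (pow_ne_zero _ Polynomial.X_ne_zero) (pow_ne_zero _ (Polynomial.X_sub_C_ne_zero ξ)),
    Polynomial.natDegree_X_pow, Polynomial.natDegree_pow, Polynomial.natDegree_X_sub_C] at hle
  omega

end Pool.Agent.Y113
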