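import Pool.Agent.H18.L.Y113.G.Siegel
import Pool.Agent.H18.L.Y113.G.Rank

/-!
# Project GF: estimates for the derived vectors
-/

set_option autoImplicit false

open PowerSeries Finset.HasAntidiagonal

namespace Pool.Agent.Y113

lemma aeval_bound {Q : Polynomial ℤ} {M : ℕ} {A x : ℝ} (hx0 : 0 ≤ x) (hx1 : x ≤ 1) (hQ : Q.natDegree ≤ M)
    (hc : ∀ l, |((Q.coeff l : ℤ) : ℝ)| ≤ A) : |Polynomial.aeval x Q| ≤ (M + 1) * A := by
  rw [Polynomial.aeval_eq_sum_range' (n := M + 1) (by omega)]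
  refine (Finset.abs_sum_le_sum_abs _ _).trans ?_
  have h1 : ∀ i ∈ Finset.range (M + 1), |Q.coeff i • x ^ i| ≤ A := by
    intro i _
    rw [zsmul_eq_mul, abs_mul, abs_of_nonneg (pow_nonneg hx0 i)]
    calc |((Q.coeff i : ℤ) : ℝ)| * x ^ i ≤ |((Q.coeff i : ℤ) : ℝ)| * 1 :=
          mul_le_mul_of_nonneg_left (pow_le_one₀ hx0 hx1) (abs_nonneg _)
      _ ≤ A := by rw [mul_one]; exact hc i
  refine (Finset.sum_le_sum h1).trans ?_
  simp

lemma int_eval {Q : Polynomial ℤ} {M : ℕ} (hQ : Q.natDegree ≤ M) {t : ℕ} (ht : 0 < t) :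
    ∃ z : ℤ, (z : ℝ) = (t : ℝ) ^ M * Polynomial.aeval (1 / (t : ℝ)) Q := by
  refine ⟨∑ i ∈ Finset.range (M + 1), Q.coeff i * (t : ℤ) ^ (M - i), ?_⟩
  rw [Polynomial.aeval_eq_sum_range' (n := M + 1) (by omega), Finset.mul_sum]
  push_cast
  refine Finset.sum_congr rfl fun i hi => ?_
  rw [Finset.mem_range] at hi
  have ht' : (t : ℝ) ≠ 0 := by exact_mod_cast ht.ne'
  rw [zsmul_eq_mul, one_div, inv_pow]
  have h1 : (t : ℝ) ^ M = t ^ (M - i) * t ^ i := by rw [← pow_add]; congr 1; omega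
  rw [h1]
  field_simp

/-- integer version of the derived vector -/
noncomputable def PdZ {N : ℕ} (T : Polynomial ℤ) (G : ℕ → Fin N → Fin N → Polynomial ℤ) (P : Fin N → Polynomial ℤ) (k : ℕ) :
    Fin N → Polynomial ℤ :=
  fun j => ∑ p ∈ antidiagonal k, ∑ i, T ^ p.1 * Polynomial.hasseDeriv p.1 (P i) * G p.2 i j

lemma hasse_map (k : ℕ) (P : Polynomial ℤ) : (Polynomial.hasseDeriv k P).map (Int.castRingHom ℚ) =
    Polynomial.hasseDeriv k (P.map (Int.castRingHom ℚ)) := by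
  ext m
  rw [Polynomial.coeff_map, Polynomial.hasseDeriv_coeff, Polynomial.hasseDeriv_coeff, Polynomial.coeff_map]
  simp

lemma PdZ_map {N : ℕ} (T : Polynomial ℤ) (G : ℕ → Fin N → Fin N → Polynomial ℤ) (P : Fin N → Polynomial ℤ) (k : ℕ) (j : Fin N) :
    (PdZ T G P k j).map (Int.castRingHom ℚ) = Pd (T.map (Int.castRingHom ℚ)) (fun s i j => (G s i j).map (Int.castRingHom ℚ))
      (fun i => (P i).map (Int.castRingHom ℚ)) k j := by
  simp only [PdZ, Pd, Polynomial.map_sum, Polynomial.map_mul, Polynomial.map_pow, hasse_map]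

lemma aeval_map_eval {Q : Polynomial ℤ} (t : ℕ) : Polynomial.aeval (1 / (t : ℝ)) Q =
    (((Q.map (Int.castRingHom ℚ)).eval (1 / (t : ℚ)) : ℚ) : ℝ) := by
  rw [Polynomial.eval_map, Polynomial.aeval_def, Polynomial.eval₂_eq_sum_range, Polynomial.eval₂_eq_sum_range]
  push_cast
  rfl

section Est

variable {N q : ℕ} {C : ℝ} {T : Polynomial ℤ}

lemma natDegree_PdZ {G : ℕ → Fin N → Fin N → Polynomial ℤ} {P : Fin N → Polynomial ℤ} {n K : ℕ}
    (hT : T.natDegree ≤ q) (hP : ∀ i, (P i).natDegree ≤ n) (hG : ∀ s ≤ K, ∀ i j, (G s i j).natDegree ≤ q * s) {k : ℕ}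
    (hk : k ≤ K) (j : Fin N) : (PdZ T G P k j).natDegree ≤ n + q * K := by
  unfold PdZ
  refine Polynomial.natDegree_sum_le_of_forall_le _ _ fun p hp => ?_
  rw [Finset.HasAntidiagonal.mem_antidiagonal] at hp
  refine Polynomial.natDegree_sum_le_of_forall_le _ _ fun i _ => ?_
  refine Polynomial.natDegree_mul_le.trans ?_
  have h1 := hG p.2 (by omega) i j
  have h2 : (T ^ p.1 * Polynomial.hasseDeriv p.1 (P i)).natDegree ≤ q * p.1 + n := by
    refine Polynomial.natDegree_mul_le.trans ?_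
    have h3 : (T ^ p.1).natDegree ≤ q * p.1 := by
      refine Polynomial.natDegree_pow_le.trans ?_
      rw [mul_comm]
      exact Nat.mul_le_mul_right _ hT
    have h4 : (Polynomial.hasseDeriv p.1 (P i)).natDegree ≤ n :=
      (Polynomial.natDegree_hasseDeriv_le _ _).trans ((Nat.sub_le _ _).trans (hP i))
    omega
  have h5 : q * p.1 + q * p.2 ≤ q * K := by
    rw [← Nat.mul_add]
    exact Nat.mul_le_mul_left _ (by omega)
  omega

/-- value of the derived vector -/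
lemma PdZ_bound {G : ℕ → Fin N → Fin N → Polynomial ℤ} {P : Fin N → Polynomial ℤ} {n K : ℕ} {A D x : ℝ}
    (hD2 : 2 ≤ D) (hCD : C ≤ D) (hC : 1 ≤ C) (hA : 0 ≤ A) (hx0 : 0 ≤ x) (hx1 : x ≤ 1)
    (hT : T.natDegree ≤ q) (hTc : ∀ l, |((T.coeff l : ℤ) : ℝ)| ≤ C)
    (hP : ∀ i, (P i).natDegree ≤ n) (hPc : ∀ i l, |(((P i).coeff l : ℤ) : ℝ)| ≤ A)
    (hG : ∀ s ≤ K, ∀ i j, (G s i j).natDegree ≤ q * s)
    (hGc : ∀ s ≤ K, ∀ i j l, |(((G s i j).coeff l : ℤ) : ℝ)| ≤ C ^ (K + 1)) {k : ℕ} (hk : k ≤ K) (j : Fin N) :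
    |Polynomial.aeval x (PdZ T G P k j)| ≤ D ^ ((2 * q + 3) * K + 2 * n + N + 1) * A := by
  have hD0 : 0 ≤ D := by linarith
  have hD1 : 1 ≤ D := by linarith
  have hnat : ∀ a : ℕ, (a : ℝ) + 1 ≤ D ^ a := by
    intro a
    calc (a : ℝ) + 1 ≤ 2 ^ a := by
          have : a + 1 ≤ 2 ^ a := Nat.lt_two_pow_self
          exact_mod_cast this
      _ ≤ D ^ a := pow_le_pow_left₀ (by norm_num) hD2 a
  have hTx : |Polynomial.aeval x T| ≤ D ^ (q + 1) := by
    refine (aeval_bound hx0 hx1 hT hTc).trans ?_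
    rw [pow_succ]
    exact mul_le_mul (hnat q) hCD (by linarith) (by positivity)
  have hPx : ∀ i, ∀ a, |Polynomial.aeval x (Polynomial.hasseDeriv a (P i))| ≤ D ^ (2 * n) * A := by
    intro i a
    have h1 : (Polynomial.hasseDeriv a (P i)).natDegree ≤ n :=
      (Polynomial.natDegree_hasseDeriv_le _ _).trans ((Nat.sub_le _ _).trans (hP i))
    have h2 : ∀ l, |(((Polynomial.hasseDeriv a (P i)).coeff l : ℤ) : ℝ)| ≤ 2 ^ n * A := by
      intro l
      rw [Polynomial.hasseDeriv_coeff]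
      rcases le_or_gt (l + a) n with h | h
      · push_cast
        rw [abs_mul, Nat.abs_cast]
        have h3 : (((l + a).choose a : ℕ) : ℝ) ≤ 2 ^ n := by
          calc (((l + a).choose a : ℕ) : ℝ) ≤ 2 ^ (l + a) := by exact_mod_cast Nat.choose_le_two_pow _ _
            _ ≤ 2 ^ n := pow_le_pow_right₀ (by norm_num) h
        exact mul_le_mul h3 (hPc _ _) (abs_nonneg _) (by positivity)
      · rw [Polynomial.coeff_eq_zero_of_natDegree_lt (lt_of_le_of_lt (hP i) h)]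
        simp only [mul_zero, Int.cast_zero, abs_zero]
        positivity
    refine (aeval_bound hx0 hx1 h1 h2).trans ?_
    have h4 : (2 : ℝ) ^ n ≤ D ^ n := pow_le_pow_left₀ (by norm_num) hD2 n
    calc ((n : ℝ) + 1) * (2 ^ n * A) ≤ D ^ n * (D ^ n * A) :=
          mul_le_mul (hnat n) (mul_le_mul_of_nonneg_right h4 hA) (by positivity) (by positivity)
      _ = D ^ (2 * n) * A := by rw [two_mul, pow_add]; ring
  have hGx : ∀ s ≤ K, ∀ i j, |Polynomial.aeval x (G s i j)| ≤ D ^ (q * K + K + 1) := by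
    intro s hs i j
    have h1 : (G s i j).natDegree ≤ q * K := (hG s hs i j).trans (Nat.mul_le_mul_left _ hs)
    refine (aeval_bound hx0 hx1 h1 (hGc s hs i j)).trans ?_
    have h2 : C ^ (K + 1) ≤ D ^ (K + 1) := pow_le_pow_left₀ (by linarith) hCD _
    calc (((q * K : ℕ) : ℝ) + 1) * C ^ (K + 1) ≤ D ^ (q * K) * D ^ (K + 1) :=
          mul_le_mul (hnat _) h2 (by positivity) (by positivity)
      _ = D ^ (q * K + K + 1) := by rw [← pow_add]; congr 1
  unfold PdZ
  rw [map_sum]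
  refine (Finset.abs_sum_le_sum_abs _ _).trans ?_
  have hterm : ∀ p ∈ antidiagonal k, |Polynomial.aeval x (∑ i, T ^ p.1 * Polynomial.hasseDeriv p.1 (P i) * G p.2 i j)| ≤
      N * (D ^ ((q + 1) * K) * (D ^ (2 * n) * A) * D ^ (q * K + K + 1)) := by
    intro p hp
    rw [Finset.HasAntidiagonal.mem_antidiagonal] at hp
    rw [map_sum]
    refine (Finset.abs_sum_le_sum_abs _ _).trans ?_
    have h1 : ∀ i : Fin N, |Polynomial.aeval x (T ^ p.1 * Polynomial.hasseDeriv p.1 (P i) * G p.2 i j)| ≤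
        D ^ ((q + 1) * K) * (D ^ (2 * n) * A) * D ^ (q * K + K + 1) := by
      intro i
      rw [map_mul, map_mul, map_pow, abs_mul, abs_mul, abs_pow]
      have h2 : |Polynomial.aeval x T| ^ p.1 ≤ D ^ ((q + 1) * K) := by
        calc |Polynomial.aeval x T| ^ p.1 ≤ (D ^ (q + 1)) ^ p.1 := pow_le_pow_left₀ (abs_nonneg _) hTx _
          _ = D ^ ((q + 1) * p.1) := by rw [← pow_mul]
          _ ≤ D ^ ((q + 1) * K) := pow_le_pow_right₀ hD1 (Nat.mul_le_mul_left _ (by omega))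
      exact mul_le_mul (mul_le_mul h2 (hPx i _) (abs_nonneg _) (by positivity)) (hGx _ (by omega) _ _) (abs_nonneg _)
        (by positivity)
    refine (Finset.sum_le_sum fun i _ => h1 i).trans ?_
    simp
  refine (Finset.sum_le_sum hterm).trans ?_
  rw [Finset.sum_const, Finset.Nat.card_antidiagonal, nsmul_eq_mul]
  have h3 : (((k + 1 : ℕ)) : ℝ) ≤ D ^ K := by
    push_cast
    calc (k : ℝ) + 1 ≤ (K : ℝ) + 1 := by have : (k : ℝ) ≤ K := by exact_mod_cast hk
                                         linarith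
      _ ≤ D ^ K := hnat K
  have h4 : (N : ℝ) ≤ D ^ N := by
    have := hnat N
    linarith
  calc (((k + 1 : ℕ)) : ℝ) * (N * (D ^ ((q + 1) * K) * (D ^ (2 * n) * A) * D ^ (q * K + K + 1)))
      ≤ D ^ K * (D ^ N * (D ^ ((q + 1) * K) * (D ^ (2 * n) * A) * D ^ (q * K + K + 1))) := by
        refine mul_le_mul h3 (mul_le_mul_of_nonneg_right h4 (by positivity)) (by positivity) (by positivity)
    _ = D ^ ((2 * q + 3) * K + 2 * n + N + 1) * A := by
        have : (2 * q + 3) * K + 2 * n + N + 1 = K + (N + ((q + 1) * K + (2 * n + (q * K + K + 1)))) := by ring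
        rw [this, pow_add, pow_add, pow_add, pow_add]
        ring

end Est

end Pool.Agent.Y113
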