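import Pool.Agent.H18.L.Y113.G.Hd

/-!
# Project GF: values of power series at `1 / t`
-/

set_option autoImplicit false

open PowerSeries Finset.HasAntidiagonal

namespace Pool.Agent.Y113

/-- absolute convergence at `1 / t` -/
def Cv (t : ℝ) (f : ℚ⟦X⟧) : Prop := Summable fun m : ℕ => |((coeff m f : ℚ) : ℝ)| * (1 / t) ^ m

section
variable {t : ℝ} (ht : 0 < t)
include ht

lemma Cv.norm {f : ℚ⟦X⟧} (hf : Cv t f) : Summable fun m : ℕ => ‖((coeff m f : ℚ) : ℝ) * (1 / t) ^ m‖ := by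
  refine hf.congr fun m => ?_
  rw [norm_mul, Real.norm_eq_abs, Real.norm_of_nonneg (by positivity)]

lemma Cv.summable {f : ℚ⟦X⟧} (hf : Cv t f) : Summable fun m : ℕ => ((coeff m f : ℚ) : ℝ) * (1 / t) ^ m :=
  (hf.norm ht).of_norm

lemma Cv.add {f g : ℚ⟦X⟧} (hf : Cv t f) (hg : Cv t g) : Cv t (f + g) := by
  refine Summable.of_nonneg_of_le (fun m => by positivity) (fun m => ?_) (Summable.add hf hg)
  rw [map_add, ← add_mul]
  push_cast
  exact mul_le_mul_of_nonneg_right (abs_add_le _ _) (by positivity)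

lemma Cv.mul {f g : ℚ⟦X⟧} (hf : Cv t f) (hg : Cv t g) : Cv t (f * g) := by
  have h1 := summable_norm_sum_mul_antidiagonal_of_summable_norm (Cv.norm ht hf) (Cv.norm ht hg)
  refine Summable.of_nonneg_of_le (fun m => by positivity) (fun m => le_of_eq ?_) h1
  rw [coeff_mul]
  have h2 : ∑ p ∈ antidiagonal m, ((coeff p.1 f : ℚ) : ℝ) * (1 / t) ^ p.1 * (((coeff p.2 g : ℚ) : ℝ) * (1 / t) ^ p.2) =
      (((∑ p ∈ antidiagonal m, coeff p.1 f * coeff p.2 g : ℚ)) : ℝ) * (1 / t) ^ m := by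
    rw [Rat.cast_sum, Finset.sum_mul]
    refine Finset.sum_congr rfl fun p hp => ?_
    rw [Finset.HasAntidiagonal.mem_antidiagonal] at hp
    rw [← hp, pow_add]
    push_cast
    ring
  rw [h2, norm_mul, Real.norm_eq_abs, Real.norm_of_nonneg (by positivity)]

lemma Cv.ev_mul {f g : ℚ⟦X⟧} (hf : Cv t f) (hg : Cv t g) : ev t (f * g) = ev t f * ev t g := by
  unfold ev
  rw [tsum_mul_tsum_eq_tsum_sum_antidiagonal_of_summable_norm (Cv.norm ht hf) (Cv.norm ht hg)]
  refine tsum_congr fun m => ?_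
  rw [coeff_mul, Rat.cast_sum, Finset.sum_mul]
  refine Finset.sum_congr rfl fun p hp => ?_
  rw [Finset.HasAntidiagonal.mem_antidiagonal] at hp
  rw [← hp, pow_add]
  push_cast
  ring

lemma Cv.ev_add {f g : ℚ⟦X⟧} (hf : Cv t f) (hg : Cv t g) : ev t (f + g) = ev t f + ev t g := by
  unfold ev
  rw [← Summable.tsum_add (Cv.summable ht hf) (Cv.summable ht hg)]
  refine tsum_congr fun m => ?_
  rw [map_add]
  push_cast
  ring

omit ht in
lemma Cv.coe (P : Polynomial ℚ) : Cv t (P : ℚ⟦X⟧) := by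
  refine summable_of_ne_finset_zero (s := Finset.range (P.natDegree + 1)) fun m hm => ?_
  rw [Finset.mem_range, not_lt] at hm
  rw [Polynomial.coeff_coe, Polynomial.coeff_eq_zero_of_natDegree_lt (by omega)]
  simp

omit ht in
lemma ev_coe (P : Polynomial ℚ) : ev t (P : ℚ⟦X⟧) = Polynomial.aeval (1 / t) P := by
  unfold ev
  rw [tsum_eq_sum (s := Finset.range (P.natDegree + 1)), Polynomial.aeval_eq_sum_range]
  · refine Finset.sum_congr rfl fun m _ => ?_
    rw [Polynomial.coeff_coe, Algebra.smul_def]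
    rfl
  · intro m hm
    rw [Finset.mem_range, not_lt] at hm
    rw [Polynomial.coeff_coe, Polynomial.coeff_eq_zero_of_natDegree_lt (by omega)]
    simp

omit ht in
lemma Cv.C (c : ℚ) : Cv t (C c) := by
  rw [← Polynomial.coe_C]; exact Cv.coe _

omit ht in
lemma ev_C (c : ℚ) : ev t (C c) = c := by
  rw [← Polynomial.coe_C, ev_coe]; simp

omit ht in
lemma Cv.one : Cv t (1 : ℚ⟦X⟧) := by
  rw [← map_one (PowerSeries.C (R := ℚ))]; exact Cv.C _

omit ht in
lemma ev_one : ev t (1 : ℚ⟦X⟧) = 1 := by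
  rw [← map_one (PowerSeries.C (R := ℚ)), ev_C]; simp

omit ht in
lemma Cv.zero : Cv t (0 : ℚ⟦X⟧) := by
  rw [← map_zero (PowerSeries.C (R := ℚ))]; exact Cv.C _

omit ht in
lemma ev_zero : ev t (0 : ℚ⟦X⟧) = 0 := by
  rw [← map_zero (PowerSeries.C (R := ℚ)), ev_C]; simp

lemma Cv.sum {σ : Type*} (s : Finset σ) (f : σ → ℚ⟦X⟧) (hf : ∀ i ∈ s, Cv t (f i)) : Cv t (∑ i ∈ s, f i) := by
  classical
  induction s using Finset.induction_on with
  | empty => simpa using Cv.zero
  | insert a s ha ih =>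
    rw [Finset.sum_insert ha]
    exact (hf a (Finset.mem_insert_self _ _)).add ht (ih fun i hi => hf i (Finset.mem_insert_of_mem hi))

lemma Cv.ev_sum {σ : Type*} (s : Finset σ) (f : σ → ℚ⟦X⟧) (hf : ∀ i ∈ s, Cv t (f i)) :
    ev t (∑ i ∈ s, f i) = ∑ i ∈ s, ev t (f i) := by
  classical
  induction s using Finset.induction_on with
  | empty => simpa using ev_zero
  | insert a s ha ih =>
    rw [Finset.sum_insert ha, Finset.sum_insert ha, (hf a (Finset.mem_insert_self _ _)).ev_add ht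
      (Cv.sum ht s f fun i hi => hf i (Finset.mem_insert_of_mem hi)), ih fun i hi => hf i (Finset.mem_insert_of_mem hi)]

lemma Cv.pow {f : ℚ⟦X⟧} (hf : Cv t f) (n : ℕ) : Cv t (f ^ n) := by
  induction n with
  | zero => simpa using Cv.one
  | succ n ih => rw [pow_succ]; exact ih.mul ht hf

lemma Cv.ev_pow {f : ℚ⟦X⟧} (hf : Cv t f) (n : ℕ) : ev t (f ^ n) = ev t f ^ n := by
  induction n with
  | zero => simpa using ev_one
  | succ n ih => rw [pow_succ, pow_succ, (hf.pow ht n).ev_mul ht hf, ih]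

lemma Cv.prod {σ : Type*} (s : Finset σ) (f : σ → ℚ⟦X⟧) (hf : ∀ i ∈ s, Cv t (f i)) : Cv t (∏ i ∈ s, f i) := by
  classical
  induction s using Finset.induction_on with
  | empty => simpa using Cv.one
  | insert a s ha ih =>
    rw [Finset.prod_insert ha]
    exact (hf a (Finset.mem_insert_self _ _)).mul ht (ih fun i hi => hf i (Finset.mem_insert_of_mem hi))

lemma Cv.ev_prod {σ : Type*} (s : Finset σ) (f : σ → ℚ⟦X⟧) (hf : ∀ i ∈ s, Cv t (f i)) :
    ev t (∏ i ∈ s, f i) = ∏ i ∈ s, ev t (f i) := by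
  classical
  induction s using Finset.induction_on with
  | empty => simpa using ev_one
  | insert a s ha ih =>
    rw [Finset.prod_insert ha, Finset.prod_insert ha, (hf a (Finset.mem_insert_self _ _)).ev_mul ht
      (Cv.prod ht s f fun i hi => hf i (Finset.mem_insert_of_mem hi)), ih fun i hi => hf i (Finset.mem_insert_of_mem hi)]

/-- criterion for convergence -/
lemma Cv.of_bound {f : ℚ⟦X⟧} {A B : ℝ} (hB : 0 ≤ B) (hBt : B < t) (hf : ∀ m, |((coeff m f : ℚ) : ℝ)| ≤ A * B ^ m) :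
    Cv t f := by
  have h1 : Summable fun m : ℕ => A * (B / t) ^ m :=
    (summable_geometric_of_lt_one (by positivity) (by rw [div_lt_one ht]; exact hBt)).mul_left A
  refine Summable.of_nonneg_of_le (fun m => by positivity) (fun m => ?_) h1
  calc |((coeff m f : ℚ) : ℝ)| * (1 / t) ^ m ≤ A * B ^ m * (1 / t) ^ m :=
        mul_le_mul_of_nonneg_right (hf m) (by positivity)
    _ = A * (B / t) ^ m := by rw [mul_assoc, ← mul_pow]; ring_nf

/-- the value of a divided derivative of a series with high order of vanishing -/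
lemma ev_hd_bound {f : ℚ⟦X⟧} {A B : ℝ} (hA : 0 ≤ A) (hB : 1 ≤ B) (hBt : 4 * B ≤ t)
    (hf : ∀ m, |((coeff m f : ℚ) : ℝ)| ≤ A * B ^ m) {m₀ k : ℕ} (hk : k ≤ m₀) (h0 : ∀ l < m₀, coeff l f = 0) :
    Cv t (hd k f) ∧ |ev t (hd k f)| ≤ 2 * (A * (4 * B) ^ m₀ * (1 / t) ^ (m₀ - k)) := by
  have hb : ∀ m, |((coeff m (hd k f) : ℚ) : ℝ)| * (1 / t) ^ m ≤
      A * (4 * B) ^ m₀ * (1 / t) ^ (m₀ - k) * (1 / 2) ^ m := by
    intro m
    rw [coeff_hd]
    rcases lt_or_ge (m + k) m₀ with h | h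
    · rw [h0 _ h]
      simp only [mul_zero, Rat.cast_zero, abs_zero, zero_mul]
      positivity
    · have h1 : |((((m + k).choose k : ℚ) * coeff (m + k) f : ℚ) : ℝ)| ≤ A * (2 * B) ^ (m + k) := by
        push_cast
        rw [abs_mul, Nat.abs_cast]
        have h2 : (((m + k).choose k : ℕ) : ℝ) ≤ 2 ^ (m + k) := by exact_mod_cast Nat.choose_le_two_pow _ _
        calc (((m + k).choose k : ℕ) : ℝ) * |((coeff (m + k) f : ℚ) : ℝ)| ≤ 2 ^ (m + k) * (A * B ^ (m + k)) :=
              mul_le_mul h2 (hf _) (abs_nonneg _) (by positivity)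
          _ = A * (2 * B) ^ (m + k) := by rw [mul_pow]; ring
      obtain ⟨r, hr⟩ : ∃ r, m = (m₀ - k) + r := ⟨m - (m₀ - k), by omega⟩
      have hmk : m + k = m₀ + r := by omega
      calc |((((m + k).choose k : ℚ) * coeff (m + k) f : ℚ) : ℝ)| * (1 / t) ^ m
          ≤ A * (2 * B) ^ (m + k) * (1 / t) ^ m := mul_le_mul_of_nonneg_right h1 (by positivity)
        _ = A * (2 * B) ^ m₀ * (1 / t) ^ (m₀ - k) * ((2 * B) * (1 / t)) ^ r := by
            rw [hmk, hr, pow_add, pow_add, mul_pow (2 * B)]; ring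
        _ ≤ A * (2 * B) ^ m₀ * (1 / t) ^ (m₀ - k) * (1 / 2) ^ r := by
            apply mul_le_mul_of_nonneg_left _ (by positivity)
            apply pow_le_pow_left₀ (by positivity)
            rw [mul_one_div, div_le_iff₀ ht]
            linarith
        _ ≤ A * (4 * B) ^ m₀ * (1 / t) ^ (m₀ - k) * (1 / 2) ^ m := by
            have h3 : (2 * B) ^ m₀ * (1 / 2) ^ r ≤ (4 * B) ^ m₀ * (1 / 2) ^ m := by
              have h4 : (4 * B) ^ m₀ * (1 / 2) ^ m = (2 * B) ^ m₀ * (1 / 2) ^ r * (2 ^ m₀ * (1 / 2) ^ (m₀ - k)) := by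
                rw [show 4 * B = 2 * (2 * B) by ring, mul_pow 2, hr, pow_add]; ring
              rw [h4]
              refine le_mul_of_one_le_right (by positivity) ?_
              have h5 : (2 : ℝ) ^ m₀ = 2 ^ (m₀ - k) * 2 ^ k := by rw [← pow_add]; congr 1; omega
              rw [h5]
              have h6 : (2 : ℝ) ^ (m₀ - k) * 2 ^ k * (1 / 2) ^ (m₀ - k) = 2 ^ k := by
                rw [one_div, inv_pow]
                field_simp
              rw [h6]
              exact one_le_pow₀ (by norm_num)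
            have h7 : A * (2 * B) ^ m₀ * (1 / t) ^ (m₀ - k) * (1 / 2) ^ r =
                A * (1 / t) ^ (m₀ - k) * ((2 * B) ^ m₀ * (1 / 2) ^ r) := by ring
            have h8 : A * (4 * B) ^ m₀ * (1 / t) ^ (m₀ - k) * (1 / 2) ^ m =
                A * (1 / t) ^ (m₀ - k) * ((4 * B) ^ m₀ * (1 / 2) ^ m) := by ring
            rw [h7, h8]
            exact mul_le_mul_of_nonneg_left h3 (by positivity)
  have hs : Summable fun m : ℕ => A * (4 * B) ^ m₀ * (1 / t) ^ (m₀ - k) * (1 / 2 : ℝ) ^ m :=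
    summable_geometric_two.mul_left _
  have hcv : Cv t (hd k f) := Summable.of_nonneg_of_le (fun m => by positivity) hb hs
  refine ⟨hcv, ?_⟩
  have h9 : |ev t (hd k f)| ≤ ∑' m : ℕ, A * (4 * B) ^ m₀ * (1 / t) ^ (m₀ - k) * (1 / 2 : ℝ) ^ m := by
    unfold ev
    rw [← Real.norm_eq_abs]
    refine tsum_of_norm_bounded hs.hasSum fun m => ?_
    rw [norm_mul, Real.norm_eq_abs, Real.norm_of_nonneg (by positivity)]
    exact hb m
  rw [tsum_mul_left, tsum_geometric_two] at h9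
  linarith

end

end Pool.Agent.Y113
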