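import Pool.Agent.H18.L.Y113.Defs2

/-!
# Project GF: divided derivatives
-/

set_option autoImplicit false

open PowerSeries Finset.HasAntidiagonal

namespace Pool.Agent.Y113

lemma coeff_hd (k m : ℕ) (f : ℚ⟦X⟧) : coeff m (hd k f) = ((m + k).choose k : ℚ) * coeff (m + k) f := by
  simp [hd]

lemma hd_zero (f : ℚ⟦X⟧) : hd 0 f = f := by
  ext m; simp [coeff_hd]

lemma hd_add (k : ℕ) (f g : ℚ⟦X⟧) : hd k (f + g) = hd k f + hd k g := by
  ext m; simp [coeff_hd, mul_add]

lemma hd_map_zero (k : ℕ) : hd k 0 = 0 := by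
  ext m; simp [coeff_hd]

lemma hd_sum (k : ℕ) {σ : Type*} (s : Finset σ) (f : σ → ℚ⟦X⟧) : hd k (∑ i ∈ s, f i) = ∑ i ∈ s, hd k (f i) := by
  ext m
  simp [coeff_hd, Finset.mul_sum]

lemma hd_coe (k : ℕ) (P : Polynomial ℚ) : hd k (P : ℚ⟦X⟧) = ((Polynomial.hasseDeriv k P : Polynomial ℚ) : ℚ⟦X⟧) := by
  ext m
  rw [coeff_hd, Polynomial.coeff_coe, Polynomial.coeff_coe, Polynomial.hasseDeriv_coeff]

lemma hd_mul (k : ℕ) (f g : ℚ⟦X⟧) :
    hd k (f * g) = ∑ p ∈ antidiagonal k, hd p.1 f * hd p.2 g := by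
  ext m
  set P : Polynomial ℚ := trunc (m + k + 1) f with hP
  set Q : Polynomial ℚ := trunc (m + k + 1) g with hQ
  have hPc : ∀ l ≤ m + k, coeff l f = P.coeff l := by
    intro l hl
    rw [hP, coeff_trunc, if_pos (by omega)]
  have hQc : ∀ l ≤ m + k, coeff l g = Q.coeff l := by
    intro l hl
    rw [hQ, coeff_trunc, if_pos (by omega)]
  have h1 : coeff m (hd k (f * g)) = (Polynomial.hasseDeriv k (P * Q)).coeff m := by
    rw [coeff_hd, Polynomial.hasseDeriv_coeff, coeff_mul, Polynomial.coeff_mul]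
    congr 1
    refine Finset.sum_congr rfl fun x hx => ?_
    rw [Finset.HasAntidiagonal.mem_antidiagonal] at hx
    rw [hPc _ (by omega), hQc _ (by omega)]
  rw [h1, Polynomial.hasseDeriv_mul, Polynomial.finsetSum_coeff, map_sum]
  refine Finset.sum_congr rfl fun x hx => ?_
  rw [Finset.HasAntidiagonal.mem_antidiagonal] at hx
  rw [coeff_mul, Polynomial.coeff_mul]
  refine Finset.sum_congr rfl fun z hz => ?_
  rw [Finset.HasAntidiagonal.mem_antidiagonal] at hz
  rw [coeff_hd, coeff_hd, Polynomial.hasseDeriv_coeff, Polynomial.hasseDeriv_coeff, hPc _ (by omega),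
    hQc _ (by omega)]

lemma hd_C_mul (k : ℕ) (c : ℚ) (f : ℚ⟦X⟧) : hd k (C c * f) = C c * hd k f := by
  ext m
  simp [coeff_hd]
  ring

/-- `d/dz` of a divided derivative -/
lemma deriv_hd (k : ℕ) (f : ℚ⟦X⟧) : d⁄dX ℚ (hd k f) = ((k : ℚ⟦X⟧) + 1) * hd (k + 1) f := by
  ext m
  have h1 : ((k : ℚ⟦X⟧) + 1) = C ((k : ℚ) + 1) := by simp
  rw [h1, coeff_derivative, coeff_C_mul, coeff_hd, coeff_hd]
  have h2 := Nat.add_one_mul_choose_eq (m + k) k
  have h4 : ((m + 1 + k).choose k : ℚ) * (m + 1) = (k + 1) * ((m + (k + 1)).choose (k + 1) : ℚ) := by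
    have h5 : (m + 1 + k).choose k * (m + 1) = (m + k + 1) * (m + k).choose k := by
      have := Nat.choose_mul_succ_eq (m + k) k
      rw [show m + 1 + k = m + k + 1 by ring]
      have h6 : m + k + 1 - k = m + 1 := by omega
      rw [h6] at this
      linarith
    have h7 : (m + (k + 1)).choose (k + 1) * (k + 1) = (m + k + 1) * (m + k).choose k := by
      rw [show m + (k + 1) = m + k + 1 by ring]
      exact h2.symm
    have h8 : ((m + 1 + k).choose k * (m + 1) : ℕ) = (k + 1) * (m + (k + 1)).choose (k + 1) := by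
      rw [h5, mul_comm (k + 1), h7]
    exact_mod_cast h8
  rw [show m + 1 + k = m + (k + 1) by ring] at *
  linear_combination (coeff (m + (k + 1)) f) * h4

/-- the factorial times the divided derivative -/
lemma fac_hd (k : ℕ) (f : ℚ⟦X⟧) : (k.factorial : ℚ⟦X⟧) * hd k f = (⇑(d⁄dX ℚ))^[k] f := by
  induction k with
  | zero => simp [hd_zero]
  | succ k ih =>
    rw [Function.iterate_succ_apply', ← ih, Derivation.leibniz]
    have h1 : d⁄dX ℚ (k.factorial : ℚ⟦X⟧) = 0 := Derivation.map_natCast _ _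
    rw [h1, deriv_hd, Nat.factorial_succ]
    simp only [smul_eq_mul, mul_zero, add_zero]
    push_cast
    ring

end Pool.Agent.Y113
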