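import Pool.Agent.H18.L.Y113.G.Rec

/-!
# Project GF: the derived forms and the rank at a point
-/

set_option autoImplicit false

open PowerSeries Finset.HasAntidiagonal

namespace Pool.Agent.Y113

section Der

variable {N : ℕ}

/-- the derived vector of order `k` (rational coefficients) -/
noncomputable def Pd (T : Polynomial ℚ) (G : ℕ → Fin N → Fin N → Polynomial ℚ) (P : Fin N → Polynomial ℚ) (k : ℕ) :
    Fin N → Polynomial ℚ :=
  fun j => ∑ p ∈ antidiagonal k, ∑ i, T ^ p.1 * Polynomial.hasseDeriv p.1 (P i) * G p.2 i j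

variable (φ : Polynomial ℚ →+* ℚ⟦X⟧) (hφ : ∀ p, d⁄dX ℚ (φ p) = φ (Polynomial.derivative p))
  {T : Polynomial ℚ} {Y : Fin N → ℚ⟦X⟧} {G : ℕ → Fin N → Fin N → Polynomial ℚ} {K : ℕ} {g : ℚ⟦X⟧}
  (hG : ∀ s ≤ K, ∀ i, g * (φ T ^ s * hd s (Y i)) = ∑ j, φ (G s i j) * Y j)

include hφ hG in
lemma Pd_eq (P : Fin N → Polynomial ℚ) (k : ℕ) (hk : k ≤ K) :
    g * (φ T ^ k * hd k (∑ i, φ (P i) * Y i)) = ∑ j, φ (Pd T G P k j) * Y j := by
  rw [hd_sum]
  have h1 : ∀ i, g * (φ T ^ k * hd k (φ (P i) * Y i)) = ∑ p ∈ antidiagonal k, ∑ j,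
      φ (T ^ p.1 * Polynomial.hasseDeriv p.1 (P i) * G p.2 i j) * Y j := by
    intro i
    rw [hd_mul, Finset.mul_sum, Finset.mul_sum]
    refine Finset.sum_congr rfl fun p hp => ?_
    rw [Finset.HasAntidiagonal.mem_antidiagonal] at hp
    have h2 := hG p.2 (by omega) i
    have h3 : g * (φ T ^ k * (hd p.1 (φ (P i)) * hd p.2 (Y i))) =
        φ T ^ p.1 * hd p.1 (φ (P i)) * (g * (φ T ^ p.2 * hd p.2 (Y i))) := by
      rw [← hp, pow_add]; ring
    rw [h3, h2, Finset.mul_sum, hd_phi φ hφ]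
    refine Finset.sum_congr rfl fun j _ => ?_
    simp only [map_mul, map_pow]
    ring
  rw [Finset.mul_sum, Finset.mul_sum]
  simp only [h1, Pd, map_sum, Finset.sum_mul]
  rw [Finset.sum_comm]
  rw [Finset.sum_congr rfl fun p _ => Finset.sum_comm, Finset.sum_comm]

end Der

/-- the matrices `G` are determined by `y` and hold for other solutions -/
lemma G_transfer {N : ℕ} {T : Polynomial ℚ} {B : Fin N → Fin N → Polynomial ℚ} {y : Fin N → ℚ⟦X⟧}
    (hy : ∀ i, (T : ℚ⟦X⟧) * d⁄dX ℚ (y i) = ∑ j, (B i j : ℚ⟦X⟧) * y j) (hLI : LinearIndependent (Polynomial ℚ) y)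
    {G : ℕ → Fin N → Fin N → Polynomial ℚ} {K : ℕ} {g : ℚ}
    (hG : ∀ s ≤ K, ∀ i, C g * ((T : ℚ⟦X⟧) ^ s * hd s (y i)) = ∑ j, (G s i j : ℚ⟦X⟧) * y j)
    (φ : Polynomial ℚ →+* ℚ⟦X⟧) (hφ : ∀ p, d⁄dX ℚ (φ p) = φ (Polynomial.derivative p)) (hφC : ∀ c : ℚ, φ (Polynomial.C c) = C c)
    {w : Fin N → ℚ⟦X⟧} (hw : ∀ i, φ T * d⁄dX ℚ (w i) = ∑ j, φ (B i j) * w j) :
    ∀ s ≤ K, ∀ i, C g * (φ T ^ s * hd s (w i)) = ∑ j, φ (G s i j) * w j := by
  intro s hs i
  have hψ : ∀ p : Polynomial ℚ, d⁄dX ℚ (Polynomial.coeToPowerSeries.ringHom p) =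
      Polynomial.coeToPowerSeries.ringHom (Polynomial.derivative p) := by
    intro p
    simp [Polynomial.coeToPowerSeries.ringHom_apply, PowerSeries.derivative_coe]
  have hfac : (s.factorial : ℚ⟦X⟧) ≠ 0 := by
    rw [← map_natCast (C (R := ℚ))]
    intro h
    rw [map_eq_zero_iff _ (PowerSeries.C_injective)] at h
    exact s.factorial_ne_zero (by exact_mod_cast h)
  have h1 := rec_iter Polynomial.coeToPowerSeries.ringHom hψ (T := T) (B := B) (Y := y)
    (by simpa [Polynomial.coeToPowerSeries.ringHom_apply] using hy) s i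
  simp only [Polynomial.coeToPowerSeries.ringHom_apply] at h1
  -- comparison of polynomials
  have h2 : ∑ j, (Polynomial.C g * Bm T B s i j - Polynomial.C (s.factorial : ℚ) * G s i j) • y j = 0 := by
    have h3 := hG s hs i
    have h4 : ∑ j, ((Polynomial.C g * Bm T B s i j - Polynomial.C (s.factorial : ℚ) * G s i j : Polynomial ℚ) : ℚ⟦X⟧) * y j
        = C g * ∑ j, (Bm T B s i j : ℚ⟦X⟧) * y j - (s.factorial : ℚ⟦X⟧) * ∑ j, (G s i j : ℚ⟦X⟧) * y j := by
      rw [Finset.mul_sum, Finset.mul_sum, ← Finset.sum_sub_distrib]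
      refine Finset.sum_congr rfl fun j _ => ?_
      push_cast
      simp only [map_natCast]
      ring
    have h5 : ∑ j, (Polynomial.C g * Bm T B s i j - Polynomial.C (s.factorial : ℚ) * G s i j) • y j =
        ∑ j, ((Polynomial.C g * Bm T B s i j - Polynomial.C (s.factorial : ℚ) * G s i j : Polynomial ℚ) : ℚ⟦X⟧) * y j := by
      refine Finset.sum_congr rfl fun j _ => ?_
      rw [Algebra.smul_def]
      rfl
    rw [h5, h4, ← h1, ← h3, ← fac_hd]
    ring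
  have h6 : ∀ j, Polynomial.C g * Bm T B s i j = Polynomial.C (s.factorial : ℚ) * G s i j := by
    intro j
    have := (Fintype.linearIndependent_iff.1 hLI _ h2) j
    exact sub_eq_zero.1 this
  have h7 := rec_iter φ hφ hw s i
  rw [← fac_hd] at h7
  apply mul_left_cancel₀ hfac
  have h8 : (s.factorial : ℚ⟦X⟧) * (C g * (φ T ^ s * hd s (w i))) =
      C g * (φ T ^ s * ((s.factorial : ℚ⟦X⟧) * hd s (w i))) := by ring
  rw [h8, h7, Finset.mul_sum, Finset.mul_sum]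
  refine Finset.sum_congr rfl fun j _ => ?_
  have h9 := congrArg φ (h6 j)
  rw [map_mul, map_mul, hφC, hφC] at h9
  simp only [map_natCast] at h9
  linear_combination w j * h9

/-- the order of the determinant if all derived vectors are orthogonal to `v` -/
lemma det_order {N : ℕ} {T : Polynomial ℚ} {B : Fin N → Fin N → Polynomial ℚ}
    (φ : Polynomial ℚ →+* ℚ⟦X⟧) (hφ : ∀ p, d⁄dX ℚ (φ p) = φ (Polynomial.derivative p))
    {w : Fin N → ℚ⟦X⟧} (hw : ∀ i, φ T * d⁄dX ℚ (w i) = ∑ j, φ (B i j) * w j)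
    (P : Fin N → Polynomial ℚ) (m : ℕ) (hm : ∀ l < m, coeff l (∑ i, φ (P i) * w i) = 0)
    (i₀ : Fin N) (hi : constantCoeff (w i₀) ≠ 0) :
    ∀ l, l + N ≤ m → coeff l (φ (Matrix.of fun k j : Fin N => ((nab T B)^[(k : ℕ)] P) j).det) = 0 := by
  have hNpos : 0 < N := i₀.pos
  set M : Matrix (Fin N) (Fin N) (Polynomial ℚ) := Matrix.of fun k j : Fin N => ((nab T B)^[(k : ℕ)] P) j with hM
  set Mφ : Matrix (Fin N) (Fin N) ℚ⟦X⟧ := M.map φ with hMφ
  have h1 : φ M.det = Mφ.det := by rw [hMφ]; exact RingHom.map_det φ M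
  have h2 : Mφ.adjugate.mulVec (Mφ.mulVec w) = Mφ.det • w := by
    rw [Matrix.mulVec_mulVec, Matrix.adjugate_mul, Matrix.smul_mulVec, Matrix.one_mulVec]
  have h3 : ∀ k : Fin N, ∀ l, l + k < m → coeff l (Mφ.mulVec w k) = 0 := by
    intro k l hl
    have h4 : Mφ.mulVec w k = ∑ j, φ ((nab T B)^[(k : ℕ)] P j) * w j := rfl
    rw [h4, nab_iter φ hφ hw]
    exact vanish_theta _ _ m k hm l hl
  -- divisibility by powers of X
  have h5 : ∀ k : Fin N, (X : ℚ⟦X⟧) ^ (m + 1 - N) ∣ Mφ.mulVec w k := by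
    intro k
    rw [PowerSeries.X_pow_dvd_iff]
    intro l hl
    exact h3 k l (by have := k.2; omega)
  have h6 : (X : ℚ⟦X⟧) ^ (m + 1 - N) ∣ Mφ.det * w i₀ := by
    have := congrFun h2 i₀
    rw [Pi.smul_apply, smul_eq_mul] at this
    rw [← this]
    show (X : ℚ⟦X⟧) ^ (m + 1 - N) ∣ ∑ k, Mφ.adjugate i₀ k * Mφ.mulVec w k
    exact Finset.dvd_sum fun k _ => Dvd.dvd.mul_left (h5 k) _
  have hu : IsUnit (w i₀) := by
    rw [PowerSeries.isUnit_iff_constantCoeff]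
    exact isUnit_iff_ne_zero.2 hi
  have h7 : (X : ℚ⟦X⟧) ^ (m + 1 - N) ∣ Mφ.det := (hu.dvd_mul_right).1 h6
  rw [h1]
  intro l hl
  exact (PowerSeries.X_pow_dvd_iff.1 h7) l (by omega)

end Pool.Agent.Y113
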