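import Pool.Agent.H18.L.Y113.G.Hd

/-!
# Project GF: the recursion of the higher derivatives
-/

set_option autoImplicit false

open PowerSeries Finset.HasAntidiagonal

namespace Pool.Agent.Y113

section Rec

variable {N : ℕ}

/-- `T^k D^k y = Bm k y` -/
noncomputable def Bm (T : Polynomial ℚ) (B : Fin N → Fin N → Polynomial ℚ) : ℕ → Fin N → Fin N → Polynomial ℚ
  | 0 => fun i j => if i = j then 1 else 0
  | k + 1 => fun i j => T * Polynomial.derivative (Bm T B k i j) - (k : Polynomial ℚ) * Polynomial.derivative T *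
      Bm T B k i j + ∑ l, Bm T B k i l * B l j

variable (φ : Polynomial ℚ →+* ℚ⟦X⟧) (hφ : ∀ p, d⁄dX ℚ (φ p) = φ (Polynomial.derivative p))
  {T : Polynomial ℚ} {B : Fin N → Fin N → Polynomial ℚ} {Y : Fin N → ℚ⟦X⟧}
  (hY : ∀ i, φ T * d⁄dX ℚ (Y i) = ∑ j, φ (B i j) * Y j)

include hφ hY in
lemma rec_iter (k : ℕ) (i : Fin N) :
    φ T ^ k * (⇑(d⁄dX ℚ))^[k] (Y i) = ∑ j, φ (Bm T B k i j) * Y j := by
  induction k with
  | zero =>
    simp only [pow_zero, one_mul, Function.iterate_zero, id_eq, Bm]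
    rw [Finset.sum_eq_single i]
    · simp
    · intro j _ hj; simp [hj.symm]
    · simp
  | succ k ih =>
    rw [Function.iterate_succ_apply']
    set f := (⇑(d⁄dX ℚ))^[k] (Y i) with hf
    have h1 := congrArg (fun x => φ T * d⁄dX ℚ x) ih
    simp only [Derivation.leibniz, map_sum, smul_eq_mul, Derivation.leibniz_pow, hφ] at h1
    have h2 : φ T * (φ T ^ k * d⁄dX ℚ f + f * (k • (φ T ^ (k - 1) * φ (Polynomial.derivative T)))) =
        φ T ^ (k + 1) * d⁄dX ℚ f + (k : ℚ⟦X⟧) * φ (Polynomial.derivative T) * (φ T ^ k * f) := by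
      rcases k with _ | k
      · simp
      · simp only [Nat.add_sub_cancel, nsmul_eq_mul]
        ring
    rw [h2, ih] at h1
    have h3 : φ T ^ (k + 1) * d⁄dX ℚ f = φ T * ∑ j, (φ (Bm T B k i j) * d⁄dX ℚ (Y j) +
        Y j * φ (Polynomial.derivative (Bm T B k i j))) -
        (k : ℚ⟦X⟧) * φ (Polynomial.derivative T) * ∑ j, φ (Bm T B k i j) * Y j := by
      linear_combination h1
    rw [h3]
    have h4 : φ T * ∑ j, (φ (Bm T B k i j) * d⁄dX ℚ (Y j) + Y j * φ (Polynomial.derivative (Bm T B k i j))) =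
        ∑ j, φ (T * Polynomial.derivative (Bm T B k i j)) * Y j +
        ∑ j, φ (∑ l, Bm T B k i l * B l j) * Y j := by
      have h5 : ∑ j, φ (∑ l, Bm T B k i l * B l j) * Y j = ∑ l, φ (Bm T B k i l) * (φ T * d⁄dX ℚ (Y l)) := by
        simp only [hY, map_sum, map_mul, Finset.sum_mul, Finset.mul_sum]
        rw [Finset.sum_comm]
        exact Finset.sum_congr rfl fun l _ => Finset.sum_congr rfl fun j _ => by ring
      rw [h5, ← Finset.sum_add_distrib, Finset.mul_sum]
      exact Finset.sum_congr rfl fun j _ => by rw [map_mul]; ring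
    rw [h4, Finset.mul_sum, ← Finset.sum_add_distrib, ← Finset.sum_sub_distrib]
    refine Finset.sum_congr rfl fun j _ => ?_
    simp only [Bm, map_add, map_sub, map_mul, map_natCast]
    ring

include hφ in
lemma hd_phi (a : ℕ) (p : Polynomial ℚ) : hd a (φ p) = φ (Polynomial.hasseDeriv a p) := by
  have h1 : (a.factorial : ℚ⟦X⟧) * hd a (φ p) = (a.factorial : ℚ⟦X⟧) * φ (Polynomial.hasseDeriv a p) := by
    rw [fac_hd]
    have h2 : ∀ n : ℕ, (⇑(d⁄dX ℚ))^[n] (φ p) = φ (Polynomial.derivative^[n] p) := by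
      intro n
      induction n with
      | zero => rfl
      | succ n ih => rw [Function.iterate_succ_apply', ih, hφ, Function.iterate_succ_apply']
    rw [h2, ← Polynomial.factorial_smul_hasseDeriv]
    simp
  have h3 : (a.factorial : ℚ⟦X⟧) ≠ 0 := by
    rw [← map_natCast (C (R := ℚ))]
    intro h
    rw [map_eq_zero_iff _ (PowerSeries.C_injective)] at h
    exact a.factorial_ne_zero (by exact_mod_cast h)
  exact mul_left_cancel₀ h3 h1

include hφ hY in
lemma nab_iter (P : Fin N → Polynomial ℚ) (k : ℕ) :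
    ∑ j, φ ((nab T B)^[k] P j) * Y j = (fun f => φ T * d⁄dX ℚ f)^[k] (∑ j, φ (P j) * Y j) := by
  induction k generalizing P with
  | zero => rfl
  | succ k ih =>
    rw [Function.iterate_succ_apply, Function.iterate_succ_apply, ih]
    congr 1
    simp only [nab, map_add, map_mul, map_sum, Derivation.leibniz, smul_eq_mul, hφ]
    simp only [add_mul, Finset.sum_add_distrib, mul_add]
    rw [add_comm]
    congr 1
    · have h5 : ∑ l, φ T * (φ (P l) * d⁄dX ℚ (Y l)) = ∑ l, φ (P l) * (φ T * d⁄dX ℚ (Y l)) :=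
        Finset.sum_congr rfl fun l _ => by ring
      rw [Finset.mul_sum, h5]
      simp only [hY, Finset.sum_mul, Finset.mul_sum]
      rw [Finset.sum_comm]
      exact Finset.sum_congr rfl fun l _ => Finset.sum_congr rfl fun j _ => by ring
    · rw [Finset.mul_sum]
      exact Finset.sum_congr rfl fun j _ => by ring

end Rec

/-- vanishing order under `T D` -/
lemma vanish_theta (U : ℚ⟦X⟧) (f : ℚ⟦X⟧) (m k : ℕ) (hf : ∀ l < m, coeff l f = 0) :
    ∀ l, l + k < m → coeff l ((fun f => U * d⁄dX ℚ f)^[k] f) = 0 := by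
  induction k generalizing f m with
  | zero => intro l hl; exact hf l hl
  | succ k ih =>
    intro l hl
    rw [Function.iterate_succ_apply]
    refine ih (U * d⁄dX ℚ f) (m - 1) (fun l hl => ?_) l (by omega)
    rw [coeff_mul]
    refine Finset.sum_eq_zero fun p hp => ?_
    rw [Finset.HasAntidiagonal.mem_antidiagonal] at hp
    rw [coeff_derivative, hf _ (by omega)]
    ring

end Pool.Agent.Y113
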