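import Pool.Agent.H18.L.Y113.G.Ev

/-!
# Project GF: Siegel's lemma, the auxiliary polynomials
-/

set_option autoImplicit false

open PowerSeries Finset.HasAntidiagonal

namespace Pool.Agent.Y113

attribute [local instance] Matrix.seminormedAddCommGroup

lemma siegel_poly {N : ℕ} {C : ℝ} (hC : 1 ≤ C) {y : Fin N → ℚ⟦X⟧}
    (size : ∀ i m, |((coeff m (y i) : ℚ) : ℝ)| ≤ C ^ (m + 1))
    (den : ∀ m, ∃ d : ℕ, 0 < d ∧ (d : ℝ) ≤ C ^ (m + 1) ∧ ∀ i, ∀ j ≤ m, ∃ a : ℤ, (d : ℚ) * coeff j (y i) = a)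
    (n m₀ e : ℕ) (hm : 0 < m₀) (hmn : m₀ < N * (n + 1)) (he : m₀ ≤ e * (N * (n + 1) - m₀)) :
    ∃ P : Fin N → Polynomial ℤ, P ≠ 0 ∧ (∀ i, (P i).natDegree ≤ n) ∧
      (∀ i l, |(((P i).coeff l : ℤ) : ℝ)| ≤ ((N * (n + 1) : ℕ) * C ^ (2 * m₀ + 1)) ^ e) ∧
      ∀ l < m₀, coeff l (∑ i, ps (P i) * y i) = 0 := by
  obtain ⟨d, hd0, hdC, hd⟩ := den m₀
  choose! a ha using hd
  let A : Matrix (Fin m₀) (Fin N × Fin (n + 1)) ℤ := Matrix.of fun l p => if (p.2 : ℕ) ≤ l then a p.1 (l - p.2) else 0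
  have hcard : Fintype.card (Fin m₀) < Fintype.card (Fin N × Fin (n + 1)) := by simpa using hmn
  obtain ⟨x, hx0, hAx, hxn⟩ := Int.Matrix.exists_ne_zero_int_vec_norm_le A hcard (by simpa using hm)
  have hAn : ‖A‖ ≤ C ^ (2 * m₀ + 1) := by
    rw [Matrix.norm_le_iff (by positivity)]
    intro l p
    show ‖(if (p.2 : ℕ) ≤ l then a p.1 (l - p.2) else 0 : ℤ)‖ ≤ _
    split_ifs with h
    · have h1 : ((a p.1 (l - p.2) : ℤ) : ℚ) = (d : ℚ) * coeff ((l : ℕ) - p.2) (y p.1) :=
        (ha p.1 _ (by have := l.2; omega)).symm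
      have h2 : ‖a p.1 (l - p.2)‖ = |((a p.1 (l - p.2) : ℤ) : ℝ)| := by
        rw [Int.norm_eq_abs]
      rw [h2]
      have h3 : ((a p.1 (l - p.2) : ℤ) : ℝ) = (d : ℝ) * ((coeff ((l : ℕ) - p.2) (y p.1) : ℚ) : ℝ) := by
        exact_mod_cast congrArg (fun q : ℚ => (q : ℝ)) h1
      rw [h3, abs_mul, Nat.abs_cast]
      calc (d : ℝ) * |((coeff ((l : ℕ) - p.2) (y p.1) : ℚ) : ℝ)| ≤ C ^ (m₀ + 1) * C ^ ((l : ℕ) - p.2 + 1) :=
            mul_le_mul hdC (size _ _) (abs_nonneg _) (by positivity)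
        _ ≤ C ^ (m₀ + 1) * C ^ m₀ := by
            apply mul_le_mul_of_nonneg_left _ (by positivity)
            exact pow_le_pow_right₀ hC (by have := l.2; omega)
        _ = C ^ (2 * m₀ + 1) := by rw [← pow_add]; congr 1; ring
    · simp only [norm_zero]; positivity
  have hxC : ∀ p, |((x p : ℤ) : ℝ)| ≤ ((N * (n + 1) : ℕ) * C ^ (2 * m₀ + 1)) ^ e := by
    intro p
    have h1 : |((x p : ℤ) : ℝ)| ≤ ‖x‖ := by
      rw [← Int.norm_eq_abs]
      exact norm_le_pi_norm x p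
    refine h1.trans (hxn.trans ?_)
    have hbase : (1 : ℝ) ≤ ((N * (n + 1) : ℕ) : ℝ) * C ^ (2 * m₀ + 1) := by
      have h2 : (1 : ℝ) ≤ ((N * (n + 1) : ℕ) : ℝ) := by
        exact_mod_cast (show 1 ≤ N * (n + 1) by omega)
      have h3 : (1 : ℝ) ≤ C ^ (2 * m₀ + 1) := one_le_pow₀ hC
      nlinarith
    have hmax : max 1 ‖A‖ ≤ C ^ (2 * m₀ + 1) := max_le (one_le_pow₀ hC) hAn
    have hcard2 : (Fintype.card (Fin N × Fin (n + 1)) : ℝ) = ((N * (n + 1) : ℕ) : ℝ) := by simp
    have hcard3 : (Fintype.card (Fin m₀) : ℝ) = m₀ := by simp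
    rw [hcard2, hcard3]
    have hexp : (m₀ : ℝ) / (((N * (n + 1) : ℕ) : ℝ) - m₀) ≤ (e : ℝ) := by
      have h4 : (0 : ℝ) < ((N * (n + 1) : ℕ) : ℝ) - m₀ := by
        have : (m₀ : ℝ) < ((N * (n + 1) : ℕ) : ℝ) := by exact_mod_cast hmn
        linarith
      rw [div_le_iff₀ h4]
      have h5 : ((N * (n + 1) - m₀ : ℕ) : ℝ) = ((N * (n + 1) : ℕ) : ℝ) - m₀ := by
        rw [Nat.cast_sub hmn.le]
      rw [← h5]
      exact_mod_cast he
    have hnn : (0 : ℝ) ≤ ((N * (n + 1) : ℕ) : ℝ) * max 1 ‖A‖ := by positivity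
    calc (((N * (n + 1) : ℕ) : ℝ) * max 1 ‖A‖) ^ ((m₀ : ℝ) / (((N * (n + 1) : ℕ) : ℝ) - m₀))
        ≤ (((N * (n + 1) : ℕ) : ℝ) * C ^ (2 * m₀ + 1)) ^ ((m₀ : ℝ) / (((N * (n + 1) : ℕ) : ℝ) - m₀)) := by
          apply Real.rpow_le_rpow hnn
          · exact mul_le_mul_of_nonneg_left hmax (by positivity)
          · apply div_nonneg (by positivity)
            have : (m₀ : ℝ) < ((N * (n + 1) : ℕ) : ℝ) := by exact_mod_cast hmn
            linarith
      _ ≤ (((N * (n + 1) : ℕ) : ℝ) * C ^ (2 * m₀ + 1)) ^ (e : ℝ) := Real.rpow_le_rpow_of_exponent_le hbase hexp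
      _ = _ := by rw [Real.rpow_natCast]
  -- the polynomials
  let P : Fin N → Polynomial ℤ := fun i => ∑ j : Fin (n + 1), Polynomial.monomial (j : ℕ) (x (i, j))
  have hPc : ∀ i (l : ℕ), (P i).coeff l = if h : l < n + 1 then x (i, ⟨l, h⟩) else 0 := by
    intro i l
    simp only [P, Polynomial.finsetSum_coeff, Polynomial.coeff_monomial]
    split_ifs with h
    · rw [Finset.sum_eq_single ⟨l, h⟩]
      · simp
      · intro b _ hb
        rw [if_neg]
        intro h2
        exact hb (Fin.ext h2)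
      · simp
    · refine Finset.sum_eq_zero fun b _ => ?_
      rw [if_neg]
      have := b.2
      omega
  refine ⟨P, ?_, ?_, ?_, ?_⟩
  · intro h0
    apply hx0
    funext ⟨i, j⟩
    have h1 := hPc i j
    rw [h0] at h1
    simp only [Pi.zero_apply, Polynomial.coeff_zero, j.2, dif_pos] at h1
    exact h1.symm
  · intro i
    refine Polynomial.natDegree_sum_le_of_forall_le _ _ fun j _ => ?_
    exact (Polynomial.natDegree_monomial_le _).trans (by have := j.2; omega)
  · intro i l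
    rw [hPc]
    split_ifs with h
    · exact hxC _
    · simp only [Int.cast_zero, abs_zero]
      positivity
  · intro l hl
    have h1 := congrFun hAx ⟨l, hl⟩
    have h2 : (d : ℚ) * coeff l (∑ i, ps (P i) * y i) = (((A.mulVec x) ⟨l, hl⟩ : ℤ) : ℚ) := by
      have h3 : (A.mulVec x) ⟨l, hl⟩ = ∑ p : Fin N × Fin (n + 1), A ⟨l, hl⟩ p * x p := rfl
      rw [h3, map_sum, Finset.mul_sum, Fintype.sum_prod_type]
      push_cast
      refine Finset.sum_congr rfl fun i _ => ?_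
      rw [coeff_mul, Finset.mul_sum]
      -- sum over the antidiagonal versus sum over Fin (n+1)
      have h4 : ∀ p ∈ antidiagonal l, (d : ℚ) * (coeff p.1 (ps (P i)) * coeff p.2 (y i)) =
          (((P i).coeff p.1 : ℤ) : ℚ) * (a i (l - p.1) : ℚ) := by
        intro p hp
        rw [Finset.HasAntidiagonal.mem_antidiagonal] at hp
        have h5 : p.2 = l - p.1 := by omega
        rw [← ha i (l - p.1) (by omega), ← h5]
        simp only [ps, Polynomial.coeff_coe, Polynomial.coeff_map, eq_intCast]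
        ring
      rw [Finset.sum_congr rfl h4]
      rw [Finset.Nat.sum_antidiagonal_eq_sum_range_succ_mk]
      have h6 : ∀ j : Fin (n + 1), ((A ⟨l, hl⟩ (i, j) : ℤ) : ℚ) * ((x (i, j) : ℤ) : ℚ) =
          (fun j : ℕ => if j ≤ l then (((P i).coeff j : ℤ) : ℚ) * (a i (l - j) : ℚ) else 0) j := by
        intro j
        simp only [A, Matrix.of_apply]
        rw [hPc, dif_pos j.2]
        split_ifs with h
        · push_cast; ring
        · simp
      rw [Finset.sum_congr rfl fun j _ => h6 j, Fin.sum_univ_eq_sum_range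
        (fun j : ℕ => if j ≤ l then (((P i).coeff j : ℤ) : ℚ) * (a i (l - j) : ℚ) else 0) (n + 1)]
      have h7 : ∀ j : ℕ, n + 1 ≤ j → (P i).coeff j = 0 := by
        intro j hj
        rw [hPc, dif_neg (by omega)]
      rcases le_total (n + 1) (l + 1) with h8 | h8
      · rw [← Finset.sum_subset (Finset.range_mono h8)]
        · refine Finset.sum_congr rfl fun j hj => ?_
          rw [Finset.mem_range] at hj
          rw [if_pos (by omega)]
        · intro j _ hj
          rw [Finset.mem_range, not_lt] at hj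
          rw [h7 j hj]; simp
      · symm
        rw [← Finset.sum_subset (Finset.range_mono h8)]
        · refine Finset.sum_congr rfl fun j hj => ?_
          rw [Finset.mem_range] at hj
          rw [if_pos (by omega)]
        · intro j _ hj
          rw [Finset.mem_range, not_lt] at hj
          rw [if_neg (by omega)]
    rw [h1] at h2
    simp only [Pi.zero_apply, Int.cast_zero] at h2
    rcases mul_eq_zero.1 h2 with h3 | h3
    · exact absurd (by exact_mod_cast h3) hd0.ne'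
    · exact h3

end Pool.Agent.Y113
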